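import Pool.Agent.U808.CG.Gor

/-!
# Hilbert functions of Gorenstein section rings

Let `S = ⨁ Sₙ` be a Noetherian graded algebra over a field `k` with `S₀ = k`, Gorenstein of
dimension `d` with `a`-invariant `-r < 0`, such that `O(1)` is invertible on `Proj S`.

* The number `z` of the degrees `n > 0` with `Sₙ = 0` satisfies `2 z ≤ d - r`, and
  `2 z + 2 ≤ d - r` if `z` is odd.
* If `d ≤ r + 3`, in particular if `d ≤ 4`, no degree is missing, and
  `dim Sₙ ≥ dim k[x₁, …, xᵣ]ₙ` for all `n`; for `n = 1` this is `dim S₁ ≥ r`.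

Idea of the proof. By a devissage the Hilbert function of `S` is a polynomial `P` for large `n`.
Modulo a homogeneous regular sequence the Hilbert function becomes symmetric, and this gives
`P(n) = dim Sₙ - (-1)^d dim S_(-r-n)` for all integers `n`. So `P`, a polynomial of degree less
than `d`, has the zeros `-1, …, 1 - r`, and `n` and `-r - n` for every missing degree `n`. If
`z` is odd and there is at most one further zero, this is at `-r/2`, and the values of `P` at `0`
and at large integers have different signs. If `d ≤ r + 3`, then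
`P = (X + 1) ⋯ (X + r - 1) R`, where `R` is of degree at most `3`, symmetric or antisymmetric about
`-r/2`, positive at `0` and nonnegative at all positive integers. This gives `R(n) ≥ R(0)`.
-/

set_option autoImplicit false

namespace Pool.Agent.Results.MP_954e53_ag.CoindexThree

open Pool.Agent.U808.CG Module

/-- Let `S = ⨁ 𝒜 n` be a Noetherian graded algebra with finite-dimensional `𝒜 n` and `𝒜 0 = k`,
Gorenstein of dimension `d` with `a`-invariant `-r < 0`, such that `O(1)` is invertible on
`Proj S`.

(1) If `Z` is a finite set of positive integers with `𝒜 n = 0` for all `n ∈ Z`, then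
`2 |Z| ≤ d - r`, and `2 |Z| + 2 ≤ d - r` if `|Z|` is odd.

(2) If `d ≤ r + 3`, then `dim 𝒜 n` is at least the number of monomials of degree `n` in `r`
variables, for all `n`. -/
theorem result {k S : Type*} [Field k] [CommRing S] [Algebra k S] (𝒜 : ℕ → Submodule k S)
    [GradedAlgebra 𝒜] [∀ n, FiniteDimensional k (𝒜 n)] [IsNoetherianRing S]
    (h0 : finrank k (𝒜 0) = 1) (hL : ConsecutiveDegrees 𝒜) {d r : ℕ} (hr : 0 < r)
    (hG : IsGorenstein 𝒜 d (-(r : ℤ))) :
    (∀ Z : Finset ℕ, (∀ n ∈ Z, 0 < n ∧ 𝒜 n = ⊥) →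
      r + 2 * Z.card ≤ d ∧ (Odd Z.card → r + 2 * Z.card + 2 ≤ d)) ∧
    (d ≤ r + 3 → ∀ n : ℕ, (r + n - 1).choose n ≤ finrank k (𝒜 n)) := by
  obtain ⟨l, rfl⟩ : ∃ l, r = l + 1 := ⟨r - 1, by omega⟩
  obtain ⟨h, P, hH, hneg, hH0, hpos, hsym, hP⟩ := main 𝒜 h0 hL hG
  constructor
  · intro Z hZ
    exact num2 hneg hH0 hpos hsym P hP Z fun i hi => ⟨(hZ i hi).1, by
      rw [hH, (hZ i hi).2, finrank_bot]
      rfl⟩
  · intro hd n
    have h1 := num (by omega) hneg hH0 hpos hsym P hP n
    rw [hH] at h1
    have h2 : (l + 1 + n - 1).choose n = (n + l).choose l := by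
      rw [show l + 1 + n - 1 = n + l by omega, Nat.choose_symm_add]
    rw [h2]
    exact_mod_cast h1

end Pool.Agent.Results.MP_954e53_ag.CoindexThree
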