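import Pool.Agent.Results.MP_954e53_ag.PfaffianAndSymmetricFormats
import Pool.Agent.U913.KM.Block

/-!
# Section rings in the format of the unprojection of `X y = 0` along `y = 0`

`R = k[x₁, …, x_N]/I` with positive weights `w i` and a diagonal action of a finite group `G`. The
zero set of `I` is given by finitely many conditions of the following kinds, which may be mixed, each
of them imposed on semi-invariant forms of positive degrees in place of the coordinates.
* `kustinMiller`: a matrix `X` of size `a × (a + 1)`, `a ≥ 2`, a vector `y` of length `a + 1` and an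
  element `s` with `X y = 0` and `s y j = (-1) ^ j` times the minor of `X` without the column `j`;
* `known`: one of the seven kinds of the starting file `PfaffianAndSymmetricFormats`.
The entries of `X` have the degrees `r i + c j`, those of `y` the degrees `f - c j`, and `s` has the
degree `∑ r + ∑ c - f`, so that all equations are homogeneous. Let `top` be the sum of the numbers
`2 ∑ r + ∑ c + (a - 1) f` for the new kind, and of the numbers of the starting file for the known
kinds. The generic ideal of the new kind has `2a + 1` generators; it is the ideal of the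
Kustin-Miller unprojection of the complete intersection `X y = 0` along `y = 0`, and it is a perfect
Gorenstein ideal of codimension `a + 1`. If `I` is generated by these forms and has the expected
codimension, then `R` is Gorenstein and `a(R) = top - ∑ w i`. If `S = ⨁ₘ (R_{hm})^G` is a section
ring and `top < ∑ w i`, then `S₁ ≠ 0`; if `h = 1`, then `dim S₁ ≥ ∑ w i - top`.

Idea of the proof. An element of `G × μ_∞` whose character on `S₁` is not trivial has no fixed line
on the cone. On the subspace of the fixed variables the entries of a nontrivial weight vanish. Let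
`A` be the set of the remaining entries of `X`, `P` that of the remaining entries of `y`, and `Q` the
set of the rows `i` such that `r i + f` has the trivial weight; then `Q × P` is contained in `A`, and a
row of `Q` has its entries of `A` in the columns of `P`. There are three families of points on which
the equations hold: if `P` is not empty, then `y` and the entries of `X` outside of one column can be
chosen freely and determine that column and `s`; if `s` has the trivial weight, then `s` and the
entries in `A` can be chosen freely and determine `y`; and for `y = 0`, `s = 0` the entries in `A`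
can be chosen freely if no term of a maximal minor remains, for which one row may be put equal to `0`.
In all cases the number of fixed variables is at most
`(2 #A + a (#P + #s) + (a - 2) #Q) / 2a`. This inequality is averaged over the group against
`1 - Re μ ^ h`; this engine is that of the starting library.
-/

set_option autoImplicit false

namespace Pool.Agent.Results.MP_954e53_ag.KustinMillerFormats

open MvPolynomial Finset Pool.Agent.TH144.NV Pool.Agent.Y374.PF
open Pool.Agent.Results.MP_954e53_ag.PfaffianAndSymmetricFormats (Form)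

section blocks
variable {k : Type} [Field k] {G : Type} [Group G] {N : ℕ} (w : Fin N → ℕ)
  (α : Fin N → G →* kˣ)

/-- A matrix `X` of size `a × (a + 1)`, `a ≥ 2`, a vector `y` and an element `s`. The entries of `X`
are forms of the degrees `r i + c j` and of the characters `ρ i κ j`, those of `y` are forms of the
degrees `f - c j` and of the characters `φ / κ j`, and `s` is a form of the degree
`∑ r + ∑ c - f` and of the character `∏ ρ ∏ κ / φ`. -/
structure KustinMiller where
  a : ℕ
  a_ge : 2 ≤ a
  X : Matrix (Fin a) (Fin (a + 1)) (MvPolynomial (Fin N) k)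
  y : Fin (a + 1) → MvPolynomial (Fin N) k
  s : MvPolynomial (Fin N) k
  r : Fin a → ℤ
  c : Fin (a + 1) → ℤ
  f : ℤ
  ρ : Fin a → G →* kˣ
  κ : Fin (a + 1) → G →* kˣ
  φ : G →* kˣ
  d : Fin a → Fin (a + 1) → ℕ
  δ : Fin (a + 1) → ℕ
  ε : ℕ
  degree_X : ∀ i j, (d i j : ℤ) = r i + c j
  degree_y : ∀ j, (δ j : ℤ) = f - c j
  degree_s : (ε : ℤ) = ∑ i, r i + ∑ j, c j - f
  form_X : ∀ i j, Form w α (X i j) (d i j) (ρ i * κ j)
  form_y : ∀ j, Form w α (y j) (δ j) (φ * (κ j)⁻¹)
  form_s : Form w α s ε ((∏ i, ρ i) * (∏ j, κ j) * φ⁻¹)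

/-- a condition: the new kind, or one of the seven kinds of the starting file -/
inductive Block
  | known (b : Pool.Agent.Results.MP_954e53_ag.PfaffianAndSymmetricFormats.Block w α)
  | kustinMiller (b : KustinMiller w α)

variable {w α}

/-- twice the contribution of the block to `a(R) + ∑ w i` -/
def Block.top2 : Block w α → ℤ
  | Block.known b => b.top2
  | Block.kustinMiller b =>
    2 * (2 * ∑ i, b.r i + ∑ j, b.c j + ((b.a : ℤ) - 1) * b.f)

/-- the condition at a point -/
def Block.Cond : Block w α → (Fin N → k) → Prop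
  | Block.known b, p => b.Cond p
  | Block.kustinMiller b, p => (∀ i, ∑ j, eval p (b.X i j) * eval p (b.y j) = 0) ∧
      ∀ j : Fin (b.a + 1), eval p b.s * eval p (b.y j) =
        (-1) ^ (j : ℕ) * ((b.X.map (eval p)).submatrix id j.succAbove).det

end blocks

variable {k : Type} [Field k] {G : Type} [Group G] {N : ℕ}

/-- A polynomial ring with positive weights `w` and a diagonal action of `G`, conditions of the
kinds above, and homogeneous equations `F j` which vanish at all points at which the conditions hold (for
instance the equations in the conditions themselves). -/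
structure Datum (k : Type) [Field k] (G : Type) [Group G] (N : ℕ) (Λ : Type) where
  w : Fin N → ℕ
  w_pos : ∀ i, 0 < w i
  α : Fin N → G →* kˣ
  block : Λ → Block w α
  J : Type
  F : J → MvPolynomial (Fin N) k
  δ : J → ℕ
  homogeneous : ∀ j, IsWeightedHomogeneous w (F j) (δ j)
  vanish : ∀ p : Fin N → k, (∀ l, (block l).Cond p) → ∀ j, eval p (F j) = 0

variable {Λ : Type}

namespace Datum

variable (D : Datum k G N Λ)

/-- the ideal of the equations -/
noncomputable def I : Ideal (MvPolynomial (Fin N) k) := Ideal.span (Set.range D.F)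

/-- the cone over `Proj R` -/
def Cone : Set (Fin N → k) := {p | ∀ j, eval p (D.F j) = 0}

/-- the automorphism `xᵢ ↦ α i g • xᵢ` of the polynomial ring -/
noncomputable def act (g : G) : MvPolynomial (Fin N) k →ₐ[k] MvPolynomial (Fin N) k :=
  Pool.Agent.TH144.NV.act fun i => (D.α i g : k)

/-- the class of `a` in `R` is a `G`-invariant form of degree `m` -/
def Inv (m : ℕ) (a : MvPolynomial (Fin N) k) : Prop :=
  IsWeightedHomogeneous D.w a m ∧
    ∀ g, Ideal.Quotient.mk D.I (D.act g a) = Ideal.Quotient.mk D.I a

/-- the space `(R_m)^G` of the classes of these forms -/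
noncomputable def sections (m : ℕ) : Submodule k (MvPolynomial (Fin N) k ⧸ D.I) where
  carrier := {q | ∃ a, D.Inv m a ∧ Ideal.Quotient.mk D.I a = q}
  add_mem' := by
    rintro _ _ ⟨a, ha, rfl⟩ ⟨b, hb, rfl⟩
    refine ⟨a + b, ⟨ha.1.add hb.1, fun g => ?_⟩, map_add _ _ _⟩
    rw [map_add, map_add, map_add, ha.2, hb.2]
  zero_mem' := ⟨0, ⟨isWeightedHomogeneous_zero _ _ _, fun g => by rw [map_zero]⟩, map_zero _⟩
  smul_mem' := by
    rintro c _ ⟨a, ha, rfl⟩
    refine ⟨c • a, ⟨?_, fun g => ?_⟩, ?_⟩
    · exact (mem_weightedHomogeneousSubmodule k D.w m _).1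
        (Submodule.smul_mem _ c ((mem_weightedHomogeneousSubmodule k D.w m _).2 ha.1))
    · rw [map_smul]
      have h1 := ha.2 g
      rw [Ideal.Quotient.eq] at h1 ⊢
      rw [← smul_sub, smul_eq_C_mul]
      exact Ideal.mul_mem_left _ _ h1
    · exact map_smul (Ideal.Quotient.mkₐ k D.I) c a

/-- At every point of `Proj R` invariant forms of some consecutive degrees `hm`, `h(m+1)` do not
vanish. This holds if `⨁ₘ (R_{hm})^G` is the section ring of an ample invertible sheaf. -/
def SectionRing (h : ℕ) : Prop :=
  ∀ p ∈ D.Cone, p ≠ 0 → ∃ (m : ℕ) (a b : MvPolynomial (Fin N) k),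
    D.Inv (h * m) a ∧ D.Inv (h * (m + 1)) b ∧ eval p a ≠ 0 ∧ eval p b ≠ 0

theorem eval_mem {p : Fin N → k} (hp : p ∈ D.Cone) {a : MvPolynomial (Fin N) k}
    (ha : a ∈ D.I) : eval p a = 0 := by
  have h1 : D.I ≤ RingHom.ker (eval p) := by
    rw [I, Ideal.span_le]
    rintro _ ⟨j, rfl⟩
    exact (RingHom.mem_ker).2 (hp j)
  exact (RingHom.mem_ker).1 (h1 ha)

theorem eval_inv {p : Fin N → k} (hp : p ∈ D.Cone) {m : ℕ} {a : MvPolynomial (Fin N) k}
    (ha : D.Inv m a) (g : G) : eval (fun i => (D.α i g : k) * p i) a = eval p a := by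
  rw [← eval_act]
  have h1 := ha.2 g
  rw [Ideal.Quotient.eq] at h1
  have h2 := D.eval_mem hp h1
  rw [map_sub, sub_eq_zero] at h2
  exact h2

/-- eigenvalues of fixed lines are `h`-th roots of unity -/
theorem pow_eq_one {h : ℕ} (hS : D.SectionRing h) {p : Fin N → k} (hp : p ∈ D.Cone)
    (hp0 : p ≠ 0) (g : G) (μ : kˣ) (hfix : ∀ i, (D.α i g : k) * p i = (μ : k) ^ D.w i * p i) :
    μ ^ h = 1 := by
  obtain ⟨m, a, b, ha, hb, ha0, hb0⟩ := hS p hp hp0
  have key : ∀ {m : ℕ} {a : MvPolynomial (Fin N) k}, D.Inv m a → eval p a ≠ 0 →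
      (μ : k) ^ m = 1 := by
    intro m a ha ha0
    have h1 := D.eval_inv hp ha g
    rw [show (fun i => (D.α i g : k) * p i) = fun i => (μ : k) ^ D.w i * p i from funext hfix,
      eval_wscale ha.1] at h1
    exact mul_right_cancel₀ ha0 (by rw [h1, one_mul])
  have h1 := key ha ha0
  have h2 := key hb hb0
  rw [mul_add, pow_add, h1, one_mul, mul_one] at h2
  ext
  simpa using h2

end Datum

theorem Block.exists_bd [CharZero k] {w : Fin N → ℕ} {α : Fin N → G →* kˣ} (b : Block w α) :
    Nonempty (Pool.Agent.R837.FQ.BD k G N w α b.top2 b.Cond) := by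
  cases b with
  | known b =>
    exact Pool.Agent.Results.MP_954e53_ag.PfaffianAndSymmetricFormats.Block.exists_bd b
  | kustinMiller b =>
    exact Pool.Agent.U913.KM.exists_bd_km (w := w) (α := α) b.a_ge b.X b.y b.s b.r b.c b.f
      b.ρ b.κ b.φ
      (fun i j => by rw [← b.degree_X i j]; exact_mod_cast (b.form_X i j).pos)
      (fun j => by rw [← b.degree_y j]; exact_mod_cast (b.form_y j).pos)
      (by rw [← b.degree_s]; exact_mod_cast b.form_s.pos)
      (fun i j d hd => by
        have h1 : d = b.d i j := by
          have := b.degree_X i j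
          omega
        rw [h1]
        exact (b.form_X i j).homogeneous)
      (fun j d hd => by
        have h1 : d = b.δ j := by
          have := b.degree_y j
          omega
        rw [h1]
        exact (b.form_y j).homogeneous)
      (fun d hd => by
        have h1 : d = b.ε := by
          have := b.degree_s
          omega
        rw [h1]
        exact b.form_s.homogeneous)
      (fun i j γ => (b.form_X i j).semi γ) (fun j γ => (b.form_y j).semi γ)
      (fun γ => b.form_s.semi γ)

namespace Datum

variable (D : Datum k G N Λ)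

/-- an ideal generated by forms of degree at least two contains no forms of degree one -/
theorem eq_zero_of_mem (hδ : ∀ j, 2 ≤ D.δ j) {u : MvPolynomial (Fin N) k}
    (hu : IsWeightedHomogeneous D.w u 1) (hI : u ∈ D.I) : u = 0 := by
  have h2 : (Polynomial.X : Polynomial (MvPolynomial (Fin N) k)) ^ 2 ∣ φ D.w u := by
    have h3 : Ideal.span (Set.range D.F) ≤
        Ideal.comap (φ D.w).toRingHom (Ideal.span {Polynomial.X ^ 2}) := by
      rw [Ideal.span_le]
      rintro _ ⟨j, rfl⟩
      rw [SetLike.mem_coe, Ideal.mem_comap, Ideal.mem_span_singleton]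
      have h4 : (φ D.w).toRingHom (D.F j) = Polynomial.C (D.F j) * Polynomial.X ^ D.δ j :=
        φ_hom (D.homogeneous j)
      rw [h4]
      exact Dvd.dvd.mul_left (pow_dvd_pow _ (hδ j)) _
    have h4 := h3 hI
    rw [Ideal.mem_comap, Ideal.mem_span_singleton] at h4
    exact h4
  rw [φ_hom hu, pow_one, Polynomial.X_pow_dvd_iff] at h2
  have h3 := h2 1 (by norm_num)
  simpa using h3

theorem finite_sections_one : FiniteDimensional k (D.sections 1) := by
  let π : MvPolynomial (Fin N) k →ₗ[k] (MvPolynomial (Fin N) k ⧸ D.I) :=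
    (Ideal.Quotient.mkₐ k D.I).toLinearMap
  have h1 : FiniteDimensional k
      (Submodule.span k (Set.range (X : Fin N → MvPolynomial (Fin N) k))) :=
    FiniteDimensional.span_of_finite k (Set.finite_range _)
  have h3 : D.sections 1 ≤ Submodule.map π
      (Submodule.span k (Set.range (X : Fin N → MvPolynomial (Fin N) k))) := by
    rintro _ ⟨a, ha, rfl⟩
    exact ⟨a, mem_span_X D.w_pos ha.1, rfl⟩
  exact Submodule.finiteDimensional_of_le h3

/-- variables of degree one are linearly independent in `R` -/
theorem card_le_finrank (hδ : ∀ j, 2 ≤ D.δ j) (T : Finset (Fin N))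
    (hInv : ∀ i ∈ T, D.Inv 1 (X i)) : T.card ≤ Module.finrank k (D.sections 1) := by
  classical
  have hfin := D.finite_sections_one
  have hmem : ∀ c : {i // i ∈ T} → k,
      Ideal.Quotient.mk D.I (∑ i, c i • (X i.1 : MvPolynomial (Fin N) k))
        ∈ D.sections 1 := by
    intro c
    rw [map_sum]
    refine Submodule.sum_mem _ (fun i _ => ?_)
    have h1 : Ideal.Quotient.mk D.I (c i • (X i.1 : MvPolynomial (Fin N) k))
        = c i • Ideal.Quotient.mk D.I (X i.1) := map_smul (Ideal.Quotient.mkₐ k D.I) _ _
    rw [h1]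
    exact Submodule.smul_mem _ _ ⟨X i.1, hInv i.1 i.2, rfl⟩
  let F : ({i // i ∈ T} → k) →ₗ[k] D.sections 1 :=
    { toFun := fun c => ⟨Ideal.Quotient.mk D.I (∑ i, c i • (X i.1 : MvPolynomial (Fin N) k)),
        hmem c⟩
      map_add' := by
        intro c d
        apply Subtype.ext
        simp only [Pi.add_apply, add_smul, Finset.sum_add_distrib, map_add]
        rfl
      map_smul' := by
        intro r' c
        apply Subtype.ext
        simp only [Pi.smul_apply, smul_eq_mul, mul_smul, ← Finset.smul_sum, RingHom.id_apply]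
        exact map_smul (Ideal.Quotient.mkₐ k D.I) _ _ }
  have hF : Function.Injective F := by
    rw [injective_iff_map_eq_zero]
    intro c hc
    have h1 : Ideal.Quotient.mk D.I (∑ i, c i • (X i.1 : MvPolynomial (Fin N) k)) = 0 :=
      congrArg Subtype.val hc
    rw [Ideal.Quotient.eq_zero_iff_mem] at h1
    have h2 : IsWeightedHomogeneous D.w (∑ i, c i • (X i.1 : MvPolynomial (Fin N) k)) 1 := by
      rw [← mem_weightedHomogeneousSubmodule]
      refine Submodule.sum_mem _ (fun i _ => Submodule.smul_mem _ _ ?_)
      rw [mem_weightedHomogeneousSubmodule]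
      exact (hInv i.1 i.2).1
    have h3 := D.eq_zero_of_mem hδ h2 h1
    have h4 : LinearIndependent k (fun i : {i // i ∈ T} => (X i.1 : MvPolynomial (Fin N) k)) :=
      (linearIndependent_X (Fin N) k).comp _ Subtype.val_injective
    funext i
    exact (Fintype.linearIndependent_iff.1 h4) c h3 i
  have h5 := LinearMap.finrank_le_finrank_of_injective hF
  simpa [Module.finrank_fintype_fun_eq_card, Fintype.card_coe] using h5

end Datum

open Classical in
theorem result [IsAlgClosed k] [CharZero k] [Finite G] [Fintype Λ] (D : Datum k G N Λ) {h : ℕ}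
    (hh : 0 < h)
    -- no variable vanishes on the cone
    (hfull : ∀ i, ∃ p ∈ D.Cone, p i ≠ 0)
    -- the ring of the `(R_{hm})^G` is a section ring
    (hS : D.SectionRing h) :
    (∃ T : Finset (Fin N),
      2 * ∑ i, (D.w i : ℤ) ≤ ∑ l, (D.block l).top2 + 2 * ∑ i ∈ T, (D.w i : ℤ) ∧
      ∀ i ∈ T, D.w i ∣ h ∧ D.Inv h (X i ^ (h / D.w i)) ∧
        ¬ IsNilpotent (Ideal.Quotient.mk D.I (X i ^ (h / D.w i)))) ∧
    (∑ l, (D.block l).top2 < 2 * ∑ i, (D.w i : ℤ) → ∃ s ∈ D.sections h, ¬ IsNilpotent s) ∧
    (h = 1 → (∀ j, 2 ≤ D.δ j) →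
      2 * ∑ i, (D.w i : ℤ) - ∑ l, (D.block l).top2 ≤ 2 * Module.finrank k (D.sections 1)) := by
  have hmain := Pool.Agent.R837.FQ.total (k := k) D.w D.w_pos D.α h (fun l => (D.block l).top2)
    (fun l => (D.block l).Cond) (fun l => (D.block l).exists_bd.some) (by
      intro g μ hμ p hp hrk
      by_contra hp0
      refine hμ (D.pow_eq_one hS (D.vanish p hrk) hp0 g μ (fun i => ?_))
      by_cases hi : p i = 0
      · rw [hi, mul_zero, mul_zero]
      · rw [hp i hi, Units.val_pow_eq_pow_val])
    (univ.filter fun i => ¬ Good h (D.w i) (D.α i)) (fun i => by simp)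
  set T : Finset (Fin N) := univ.filter fun i => Good h (D.w i) (D.α i) with hT
  have hsum : 2 * ∑ i, (D.w i : ℤ) ≤ ∑ l, (D.block l).top2 + 2 * ∑ i ∈ T, (D.w i : ℤ) := by
    have h1 := Finset.sum_filter_add_sum_filter_not (univ : Finset (Fin N))
      (fun i => Good h (D.w i) (D.α i)) (fun i => (D.w i : ℤ))
    rw [← hT] at h1
    linarith
  have hprop : ∀ i ∈ T, D.w i ∣ h ∧ D.Inv h (X i ^ (h / D.w i)) ∧
        ¬ IsNilpotent (Ideal.Quotient.mk D.I (X i ^ (h / D.w i))) := by
    intro i hi
    obtain ⟨hdvd, hα⟩ := ((Finset.mem_filter.1 hi).2).dvd (D.w_pos i)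
    refine ⟨hdvd, ⟨?_, ?_⟩, ?_⟩
    · have h1 := (isWeightedHomogeneous_X k D.w i).pow (h / D.w i)
      rwa [smul_eq_mul, Nat.div_mul_cancel hdvd] at h1
    · intro g
      have h1 : D.act g (X i ^ (h / D.w i)) = X i ^ (h / D.w i) := by
        rw [map_pow]
        show (Pool.Agent.TH144.NV.act (fun i => (D.α i g : k)) (X i)) ^ _ = _
        unfold Pool.Agent.TH144.NV.act
        rw [aeval_X, mul_pow, ← C_pow, ← Units.val_pow_eq_pow_val, hα g, Units.val_one, C_1,
          one_mul]
      rw [h1]
    · rintro ⟨m, hm⟩
      obtain ⟨p, hp, hpi⟩ := hfull i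
      rw [← map_pow, Ideal.Quotient.eq_zero_iff_mem] at hm
      have := D.eval_mem hp hm
      rw [map_pow, map_pow, eval_X] at this
      exact hpi (eq_zero_of_pow_eq_zero (eq_zero_of_pow_eq_zero this))
  refine ⟨⟨T, hsum, hprop⟩, ?_, ?_⟩
  · intro hlt
    have hne : T.Nonempty := by
      rw [Finset.nonempty_iff_ne_empty]
      intro h0
      rw [h0, Finset.sum_empty] at hsum
      omega
    obtain ⟨i, hi⟩ := hne
    exact ⟨_, ⟨_, (hprop i hi).2.1, rfl⟩, (hprop i hi).2.2⟩
  · rintro rfl hδ
    have hw1 : ∀ i ∈ T, D.w i = 1 := fun i hi => Nat.dvd_one.1 (hprop i hi).1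
    have h1 := D.card_le_finrank hδ T (fun i hi => by
      have h2 := (hprop i hi).2.1
      rw [hw1 i hi] at h2
      simpa using h2)
    have h2 : ∑ i ∈ T, (D.w i : ℤ) = T.card := by
      rw [Finset.sum_congr rfl (fun i hi => by rw [hw1 i hi, Nat.cast_one])]
      simp
    rw [h2] at hsum
    have h3 : (T.card : ℤ) ≤ Module.finrank k (D.sections 1) := by exact_mod_cast h1
    linarith

end Pool.Agent.Results.MP_954e53_ag.KustinMillerFormats
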