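import Pool.Agent.Results.MP_954e53_ag.PfaffianAndSymmetricFormats
import Pool.Agent.U913.SV.Block

/-!
# Section rings in Segre-Veronese formats

`R = k[x₁, …, x_N]/I` with positive weights `w i` and a diagonal action of a finite group `G`. The
zero set of `I` is given by finitely many conditions of the following kinds, which may be mixed, each
of them imposed on semi-invariant forms of positive degrees in place of the coordinates.
* `segreVeronese`: the forms `T_u` satisfy the equations of the Segre-Veronese variety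
  `ℙ^(n₁-1) × ⋯ × ℙ^(n_r-1)` embedded by `O(d₁, …, d_r)`, where `n_j = c d_j` for a number `c`; here
  `u` runs over the families of multisets `u j` of size `d j` in `{1, …, n j}` (the case `r = 1` is
  the Veronese variety of order `d` of `ℙ^(cd-1)`);
* `known`: one of the seven kinds of the starting file `PfaffianAndSymmetricFormats`.
The degrees of the `T_u` are `t + ∑ a j i` (sum over the elements `i` of the `u j`). Let `top` be the
sum of the numbers `(∑ degrees of the T_u) - (c t + ∑ a)` for `segreVeronese`, and of the numbers of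
the starting file for the known kinds. The ring of the Segre-Veronese variety is Gorenstein because
of `n_j = c d_j`, and if `I` is generated by its equations in the `T_u` and has the expected
codimension, then `R` is Gorenstein and `a(R) = top - ∑ w i`. If `S = ⨁ₘ (R_{hm})^G` is a section ring
and `top < ∑ w i`, then `S₁ ≠ 0`; if `h = 1`, then `dim S₁ ≥ ∑ w i - top`.

Idea of the proof. An element of `G × μ_∞` whose character on `S₁` is not trivial has no fixed line
on the cone; so the number of the fixed variables is at most the codimension of the points of the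
format whose nonvanishing coordinates have the trivial weight. Such an element gives scalars `λ j x`;
among the pure coordinates `(i₁^{d₁}, …, i_r^{d_r})` of trivial weight choose the one with the largest
class `{x | λ 1 x = λ 1 i₁}`. The points of the format supported on this class in the first direction
have this dimension (the coordinates next to the pure coordinate are free, and the others are
monomials in them), and since `λ^{d₁} = const` has at most `d₁` solutions, the number of all pure
coordinates of trivial weight is at most `∏ n / c` times this dimension. The inequality is averaged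
over the group against `1 - Re μ ^ h`; this engine is that of the starting library.
-/

set_option autoImplicit false

namespace Pool.Agent.Results.MP_954e53_ag.SegreVeroneseFormats

open MvPolynomial Finset Pool.Agent.TH144.NV Pool.Agent.Y374.PF
open Pool.Agent.Results.MP_954e53_ag.PfaffianAndSymmetricFormats (Form)

section blocks
variable {k : Type} [Field k] {G : Type} [Group G] {N : ℕ} (w : Fin N → ℕ)
  (α : Fin N → G →* kˣ)

/-- Forms `T u` in place of the coordinates of the cone over the product of `r ≥ 1` projective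
spaces of the dimensions `n j - 1`, embedded by `O(d 1, …, d r)`, where `n j = c * d j`. The index `u`
is a family of multisets `u j` of size `d j` in `Fin (n j)`. The degree of `T u` is `t` plus the sum
of the `a j x` over all elements `x` of the multisets `u j`, and its character is the product of `ω`
with the `ψ j x`. -/
structure SegreVeronese where
  r : ℕ
  r_pos : 0 < r
  n : Fin r → ℕ
  d : Fin r → ℕ
  d_pos : ∀ j, 0 < d j
  c : ℕ
  c_pos : 0 < c
  ratio : ∀ j, n j = c * d j
  T : ((j : Fin r) → Sym (Fin (n j)) (d j)) → MvPolynomial (Fin N) k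
  a : (j : Fin r) → Fin (n j) → ℤ
  t : ℤ
  ψ : (j : Fin r) → Fin (n j) → G →* kˣ
  ω : G →* kˣ
  deg : ((j : Fin r) → Sym (Fin (n j)) (d j)) → ℕ
  degree : ∀ u, (deg u : ℤ) = t + ∑ j, ((u j : Multiset (Fin (n j))).map (a j)).sum
  form : ∀ u, Form w α (T u) (deg u) (ω * ∏ j, ((u j : Multiset (Fin (n j))).map (ψ j)).prod)

/-- a condition: the new kind, or one of the seven kinds of the starting file -/
inductive Block
  | known (b : Pool.Agent.Results.MP_954e53_ag.PfaffianAndSymmetricFormats.Block w α)
  | segreVeronese (b : SegreVeronese w α)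

variable {w α}

/-- twice the contribution of the block to `a(R) + ∑ w i` -/
def Block.top2 : Block w α → ℤ
  | Block.known b => b.top2
  | Block.segreVeronese b => 2 * (∑ u, (b.deg u : ℤ) - (b.c * b.t + ∑ j, ∑ x, b.a j x))

/-- the condition at a point -/
def Block.Cond : Block w α → (Fin N → k) → Prop
  | Block.known b, p => b.Cond p
  | Block.segreVeronese b, p => ∀ u v u' v' : (j : Fin b.r) → Sym (Fin (b.n j)) (b.d j),
      (∀ j, (u j : Multiset (Fin (b.n j))) + v j = u' j + v' j) →
        eval p (b.T u) * eval p (b.T v) = eval p (b.T u') * eval p (b.T v')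

end blocks

variable {k : Type} [Field k] {G : Type} [Group G] {N : ℕ}

/-- A polynomial ring with positive weights `w` and a diagonal action of `G`, conditions of the
kinds above, and homogeneous equations `F j` which vanish at all points at which the conditions hold (for
instance the equations in the conditions themselves). -/
structure Datum (k : Type) [Field k] (G : Type) [Group G] (N : ℕ) (Λ : Type) where
  w : Fin N → ℕ
  w_pos : ∀ i, 0 < w i
  α : Fin N → G →* kˣ
  block : Λ → Block w α
  J : Type
  F : J → MvPolynomial (Fin N) k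
  δ : J → ℕ
  homogeneous : ∀ j, IsWeightedHomogeneous w (F j) (δ j)
  vanish : ∀ p : Fin N → k, (∀ l, (block l).Cond p) → ∀ j, eval p (F j) = 0

variable {Λ : Type}

namespace Datum

variable (D : Datum k G N Λ)

/-- the ideal of the equations -/
noncomputable def I : Ideal (MvPolynomial (Fin N) k) := Ideal.span (Set.range D.F)

/-- the cone over `Proj R` -/
def Cone : Set (Fin N → k) := {p | ∀ j, eval p (D.F j) = 0}

/-- the automorphism `xᵢ ↦ α i g • xᵢ` of the polynomial ring -/
noncomputable def act (g : G) : MvPolynomial (Fin N) k →ₐ[k] MvPolynomial (Fin N) k :=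
  Pool.Agent.TH144.NV.act fun i => (D.α i g : k)

/-- the class of `a` in `R` is a `G`-invariant form of degree `m` -/
def Inv (m : ℕ) (a : MvPolynomial (Fin N) k) : Prop :=
  IsWeightedHomogeneous D.w a m ∧
    ∀ g, Ideal.Quotient.mk D.I (D.act g a) = Ideal.Quotient.mk D.I a

/-- the space `(R_m)^G` of the classes of these forms -/
noncomputable def sections (m : ℕ) : Submodule k (MvPolynomial (Fin N) k ⧸ D.I) where
  carrier := {q | ∃ a, D.Inv m a ∧ Ideal.Quotient.mk D.I a = q}
  add_mem' := by
    rintro _ _ ⟨a, ha, rfl⟩ ⟨b, hb, rfl⟩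
    refine ⟨a + b, ⟨ha.1.add hb.1, fun g => ?_⟩, map_add _ _ _⟩
    rw [map_add, map_add, map_add, ha.2, hb.2]
  zero_mem' := ⟨0, ⟨isWeightedHomogeneous_zero _ _ _, fun g => by rw [map_zero]⟩, map_zero _⟩
  smul_mem' := by
    rintro c _ ⟨a, ha, rfl⟩
    refine ⟨c • a, ⟨?_, fun g => ?_⟩, ?_⟩
    · exact (mem_weightedHomogeneousSubmodule k D.w m _).1
        (Submodule.smul_mem _ c ((mem_weightedHomogeneousSubmodule k D.w m _).2 ha.1))
    · rw [map_smul]
      have h1 := ha.2 g
      rw [Ideal.Quotient.eq] at h1 ⊢
      rw [← smul_sub, smul_eq_C_mul]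
      exact Ideal.mul_mem_left _ _ h1
    · exact map_smul (Ideal.Quotient.mkₐ k D.I) c a

/-- At every point of `Proj R` invariant forms of some consecutive degrees `hm`, `h(m+1)` do not
vanish. This holds if `⨁ₘ (R_{hm})^G` is the section ring of an ample invertible sheaf. -/
def SectionRing (h : ℕ) : Prop :=
  ∀ p ∈ D.Cone, p ≠ 0 → ∃ (m : ℕ) (a b : MvPolynomial (Fin N) k),
    D.Inv (h * m) a ∧ D.Inv (h * (m + 1)) b ∧ eval p a ≠ 0 ∧ eval p b ≠ 0

theorem eval_mem {p : Fin N → k} (hp : p ∈ D.Cone) {a : MvPolynomial (Fin N) k}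
    (ha : a ∈ D.I) : eval p a = 0 := by
  have h1 : D.I ≤ RingHom.ker (eval p) := by
    rw [I, Ideal.span_le]
    rintro _ ⟨j, rfl⟩
    exact (RingHom.mem_ker).2 (hp j)
  exact (RingHom.mem_ker).1 (h1 ha)

theorem eval_inv {p : Fin N → k} (hp : p ∈ D.Cone) {m : ℕ} {a : MvPolynomial (Fin N) k}
    (ha : D.Inv m a) (g : G) : eval (fun i => (D.α i g : k) * p i) a = eval p a := by
  rw [← eval_act]
  have h1 := ha.2 g
  rw [Ideal.Quotient.eq] at h1
  have h2 := D.eval_mem hp h1
  rw [map_sub, sub_eq_zero] at h2
  exact h2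

/-- eigenvalues of fixed lines are `h`-th roots of unity -/
theorem pow_eq_one {h : ℕ} (hS : D.SectionRing h) {p : Fin N → k} (hp : p ∈ D.Cone)
    (hp0 : p ≠ 0) (g : G) (μ : kˣ) (hfix : ∀ i, (D.α i g : k) * p i = (μ : k) ^ D.w i * p i) :
    μ ^ h = 1 := by
  obtain ⟨m, a, b, ha, hb, ha0, hb0⟩ := hS p hp hp0
  have key : ∀ {m : ℕ} {a : MvPolynomial (Fin N) k}, D.Inv m a → eval p a ≠ 0 →
      (μ : k) ^ m = 1 := by
    intro m a ha ha0
    have h1 := D.eval_inv hp ha g
    rw [show (fun i => (D.α i g : k) * p i) = fun i => (μ : k) ^ D.w i * p i from funext hfix,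
      eval_wscale ha.1] at h1
    exact mul_right_cancel₀ ha0 (by rw [h1, one_mul])
  have h1 := key ha ha0
  have h2 := key hb hb0
  rw [mul_add, pow_add, h1, one_mul, mul_one] at h2
  ext
  simpa using h2

end Datum

theorem Block.exists_bd [CharZero k] {w : Fin N → ℕ} {α : Fin N → G →* kˣ} (b : Block w α) :
    Nonempty (Pool.Agent.R837.FQ.BD k G N w α b.top2 b.Cond) := by
  cases b with
  | known b =>
    exact Pool.Agent.Results.MP_954e53_ag.PfaffianAndSymmetricFormats.Block.exists_bd b
  | segreVeronese b =>
    exact Pool.Agent.U913.SV.exists_bd_sv (w := w) (α := α) (⟨0, b.r_pos⟩ : Fin b.r) b.c b.c_pos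
      b.d_pos b.ratio b.a b.t b.ψ b.ω b.T b.deg b.degree (fun u => (b.form u).pos)
      (fun u => (b.form u).homogeneous) (fun γ u => (b.form u).semi γ)

namespace Datum

variable (D : Datum k G N Λ)

/-- an ideal generated by forms of degree at least two contains no forms of degree one -/
theorem eq_zero_of_mem (hδ : ∀ j, 2 ≤ D.δ j) {u : MvPolynomial (Fin N) k}
    (hu : IsWeightedHomogeneous D.w u 1) (hI : u ∈ D.I) : u = 0 := by
  have h2 : (Polynomial.X : Polynomial (MvPolynomial (Fin N) k)) ^ 2 ∣ φ D.w u := by
    have h3 : Ideal.span (Set.range D.F) ≤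
        Ideal.comap (φ D.w).toRingHom (Ideal.span {Polynomial.X ^ 2}) := by
      rw [Ideal.span_le]
      rintro _ ⟨j, rfl⟩
      rw [SetLike.mem_coe, Ideal.mem_comap, Ideal.mem_span_singleton]
      have h4 : (φ D.w).toRingHom (D.F j) = Polynomial.C (D.F j) * Polynomial.X ^ D.δ j :=
        φ_hom (D.homogeneous j)
      rw [h4]
      exact Dvd.dvd.mul_left (pow_dvd_pow _ (hδ j)) _
    have h4 := h3 hI
    rw [Ideal.mem_comap, Ideal.mem_span_singleton] at h4
    exact h4
  rw [φ_hom hu, pow_one, Polynomial.X_pow_dvd_iff] at h2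
  have h3 := h2 1 (by norm_num)
  simpa using h3

theorem finite_sections_one : FiniteDimensional k (D.sections 1) := by
  let π : MvPolynomial (Fin N) k →ₗ[k] (MvPolynomial (Fin N) k ⧸ D.I) :=
    (Ideal.Quotient.mkₐ k D.I).toLinearMap
  have h1 : FiniteDimensional k
      (Submodule.span k (Set.range (X : Fin N → MvPolynomial (Fin N) k))) :=
    FiniteDimensional.span_of_finite k (Set.finite_range _)
  have h3 : D.sections 1 ≤ Submodule.map π
      (Submodule.span k (Set.range (X : Fin N → MvPolynomial (Fin N) k))) := by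
    rintro _ ⟨a, ha, rfl⟩
    exact ⟨a, mem_span_X D.w_pos ha.1, rfl⟩
  exact Submodule.finiteDimensional_of_le h3

/-- variables of degree one are linearly independent in `R` -/
theorem card_le_finrank (hδ : ∀ j, 2 ≤ D.δ j) (T : Finset (Fin N))
    (hInv : ∀ i ∈ T, D.Inv 1 (X i)) : T.card ≤ Module.finrank k (D.sections 1) := by
  classical
  have hfin := D.finite_sections_one
  have hmem : ∀ c : {i // i ∈ T} → k,
      Ideal.Quotient.mk D.I (∑ i, c i • (X i.1 : MvPolynomial (Fin N) k))
        ∈ D.sections 1 := by
    intro c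
    rw [map_sum]
    refine Submodule.sum_mem _ (fun i _ => ?_)
    have h1 : Ideal.Quotient.mk D.I (c i • (X i.1 : MvPolynomial (Fin N) k))
        = c i • Ideal.Quotient.mk D.I (X i.1) := map_smul (Ideal.Quotient.mkₐ k D.I) _ _
    rw [h1]
    exact Submodule.smul_mem _ _ ⟨X i.1, hInv i.1 i.2, rfl⟩
  let F : ({i // i ∈ T} → k) →ₗ[k] D.sections 1 :=
    { toFun := fun c => ⟨Ideal.Quotient.mk D.I (∑ i, c i • (X i.1 : MvPolynomial (Fin N) k)),
        hmem c⟩
      map_add' := by
        intro c d
        apply Subtype.ext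
        simp only [Pi.add_apply, add_smul, Finset.sum_add_distrib, map_add]
        rfl
      map_smul' := by
        intro r' c
        apply Subtype.ext
        simp only [Pi.smul_apply, smul_eq_mul, mul_smul, ← Finset.smul_sum, RingHom.id_apply]
        exact map_smul (Ideal.Quotient.mkₐ k D.I) _ _ }
  have hF : Function.Injective F := by
    rw [injective_iff_map_eq_zero]
    intro c hc
    have h1 : Ideal.Quotient.mk D.I (∑ i, c i • (X i.1 : MvPolynomial (Fin N) k)) = 0 :=
      congrArg Subtype.val hc
    rw [Ideal.Quotient.eq_zero_iff_mem] at h1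
    have h2 : IsWeightedHomogeneous D.w (∑ i, c i • (X i.1 : MvPolynomial (Fin N) k)) 1 := by
      rw [← mem_weightedHomogeneousSubmodule]
      refine Submodule.sum_mem _ (fun i _ => Submodule.smul_mem _ _ ?_)
      rw [mem_weightedHomogeneousSubmodule]
      exact (hInv i.1 i.2).1
    have h3 := D.eq_zero_of_mem hδ h2 h1
    have h4 : LinearIndependent k (fun i : {i // i ∈ T} => (X i.1 : MvPolynomial (Fin N) k)) :=
      (linearIndependent_X (Fin N) k).comp _ Subtype.val_injective
    funext i
    exact (Fintype.linearIndependent_iff.1 h4) c h3 i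
  have h5 := LinearMap.finrank_le_finrank_of_injective hF
  simpa [Module.finrank_fintype_fun_eq_card, Fintype.card_coe] using h5

end Datum

open Classical in
theorem result [IsAlgClosed k] [CharZero k] [Finite G] [Fintype Λ] (D : Datum k G N Λ) {h : ℕ}
    (hh : 0 < h)
    -- no variable vanishes on the cone
    (hfull : ∀ i, ∃ p ∈ D.Cone, p i ≠ 0)
    -- the ring of the `(R_{hm})^G` is a section ring
    (hS : D.SectionRing h) :
    (∃ T : Finset (Fin N),
      2 * ∑ i, (D.w i : ℤ) ≤ ∑ l, (D.block l).top2 + 2 * ∑ i ∈ T, (D.w i : ℤ) ∧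
      ∀ i ∈ T, D.w i ∣ h ∧ D.Inv h (X i ^ (h / D.w i)) ∧
        ¬ IsNilpotent (Ideal.Quotient.mk D.I (X i ^ (h / D.w i)))) ∧
    (∑ l, (D.block l).top2 < 2 * ∑ i, (D.w i : ℤ) → ∃ s ∈ D.sections h, ¬ IsNilpotent s) ∧
    (h = 1 → (∀ j, 2 ≤ D.δ j) →
      2 * ∑ i, (D.w i : ℤ) - ∑ l, (D.block l).top2 ≤ 2 * Module.finrank k (D.sections 1)) := by
  have hmain := Pool.Agent.R837.FQ.total (k := k) D.w D.w_pos D.α h (fun l => (D.block l).top2)
    (fun l => (D.block l).Cond) (fun l => (D.block l).exists_bd.some) (by
      intro g μ hμ p hp hrk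
      by_contra hp0
      refine hμ (D.pow_eq_one hS (D.vanish p hrk) hp0 g μ (fun i => ?_))
      by_cases hi : p i = 0
      · rw [hi, mul_zero, mul_zero]
      · rw [hp i hi, Units.val_pow_eq_pow_val])
    (univ.filter fun i => ¬ Good h (D.w i) (D.α i)) (fun i => by simp)
  set T : Finset (Fin N) := univ.filter fun i => Good h (D.w i) (D.α i) with hT
  have hsum : 2 * ∑ i, (D.w i : ℤ) ≤ ∑ l, (D.block l).top2 + 2 * ∑ i ∈ T, (D.w i : ℤ) := by
    have h1 := Finset.sum_filter_add_sum_filter_not (univ : Finset (Fin N))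
      (fun i => Good h (D.w i) (D.α i)) (fun i => (D.w i : ℤ))
    rw [← hT] at h1
    linarith
  have hprop : ∀ i ∈ T, D.w i ∣ h ∧ D.Inv h (X i ^ (h / D.w i)) ∧
        ¬ IsNilpotent (Ideal.Quotient.mk D.I (X i ^ (h / D.w i))) := by
    intro i hi
    obtain ⟨hdvd, hα⟩ := ((Finset.mem_filter.1 hi).2).dvd (D.w_pos i)
    refine ⟨hdvd, ⟨?_, ?_⟩, ?_⟩
    · have h1 := (isWeightedHomogeneous_X k D.w i).pow (h / D.w i)
      rwa [smul_eq_mul, Nat.div_mul_cancel hdvd] at h1
    · intro g
      have h1 : D.act g (X i ^ (h / D.w i)) = X i ^ (h / D.w i) := by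
        rw [map_pow]
        show (Pool.Agent.TH144.NV.act (fun i => (D.α i g : k)) (X i)) ^ _ = _
        unfold Pool.Agent.TH144.NV.act
        rw [aeval_X, mul_pow, ← C_pow, ← Units.val_pow_eq_pow_val, hα g, Units.val_one, C_1,
          one_mul]
      rw [h1]
    · rintro ⟨m, hm⟩
      obtain ⟨p, hp, hpi⟩ := hfull i
      rw [← map_pow, Ideal.Quotient.eq_zero_iff_mem] at hm
      have := D.eval_mem hp hm
      rw [map_pow, map_pow, eval_X] at this
      exact hpi (eq_zero_of_pow_eq_zero (eq_zero_of_pow_eq_zero this))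
  refine ⟨⟨T, hsum, hprop⟩, ?_, ?_⟩
  · intro hlt
    have hne : T.Nonempty := by
      rw [Finset.nonempty_iff_ne_empty]
      intro h0
      rw [h0, Finset.sum_empty] at hsum
      omega
    obtain ⟨i, hi⟩ := hne
    exact ⟨_, ⟨_, (hprop i hi).2.1, rfl⟩, (hprop i hi).2.2⟩
  · rintro rfl hδ
    have hw1 : ∀ i ∈ T, D.w i = 1 := fun i hi => Nat.dvd_one.1 (hprop i hi).1
    have h1 := D.card_le_finrank hδ T (fun i hi => by
      have h2 := (hprop i hi).2.1
      rw [hw1 i hi] at h2
      simpa using h2)
    have h2 : ∑ i ∈ T, (D.w i : ℤ) = T.card := by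
      rw [Finset.sum_congr rfl (fun i hi => by rw [hw1 i hi, Nat.cast_one])]
      simp
    rw [h2] at hsum
    have h3 : (T.card : ℤ) ≤ Module.finrank k (D.sections 1) := by exact_mod_cast h1
    linarith

end Pool.Agent.Results.MP_954e53_ag.SegreVeroneseFormats
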